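import Pool.Agent.H282R5.PC.Final
import Pool.Agent.H282R5.PD.Upper

/-!
# MP_c59ecb_co, Q1: the true order of growth of `P(n) - n²` is `n^(3/5)`

`c_n(ε)` is `Nc (n + ε)`: the least number of closed unit squares (images of `[0,1]²` under
isometries of the plane) that cover a closed square of side `n + ε`. `P(n)` (`P n`) is the minimum
of `c_n(ε)` over `ε > 0`; it is the value of `c_n(ε)` for all small `ε > 0`.
There are constants `0 < c`, `0 < C` with `c n^(3/5) ≤ P(n) - n² ≤ C n^(3/5)` for every `n ≥ 1`.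
-/

namespace Pool.Agent.Results.MP_c59ecb_co.TrueOrder

open H282R3.SQ

/-- The true order of growth: `P(n) - n²` lies between two positive constants times `n^(3/5)`. -/
theorem result :
    (∀ n : ℕ, ∃ δ : ℝ, 0 < δ ∧ ∀ ε : ℝ, 0 < ε → ε ≤ δ → Nc (n + ε) = P n) ∧
      ∃ c C : ℝ, 0 < c ∧ 0 < C ∧ ∀ n : ℕ, 1 ≤ n →
        c * (n : ℝ) ^ ((3 : ℝ) / 5) ≤ (P n : ℝ) - (n : ℝ) ^ 2 ∧
          (P n : ℝ) - (n : ℝ) ^ 2 ≤ C * (n : ℝ) ^ ((3 : ℝ) / 5) := by
  constructor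
  · intro n
    obtain ⟨δ, hδ, hP⟩ := P_attained n
    refine ⟨δ, hδ, fun ε hε hεδ => le_antisymm ?_ ?_⟩
    · rw [hP]
      exact Nc_mono exists_cover (by linarith)
    · exact Nat.sInf_le ⟨ε, hε, rfl⟩
  · obtain ⟨C, hC, hU⟩ := H282R5.PD.P_upper
    exact ⟨1 / 10 ^ 201, C, by positivity, hC, fun n hn => ⟨H282R5.PC.P_lower n hn, hU n hn⟩⟩

end Pool.Agent.Results.MP_c59ecb_co.TrueOrder
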